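import Pool.Agent.W838.DC.Zs
import Pool.Agent.W227.DC.Final

/-!
# DC3-RES and DC3-EC: restriction of `Stab`, and the case of commuting reflections
-/

set_option autoImplicit false

namespace Pool.Agent.W395.DC

open Pool.Agent.W838.DC Pool.Agent.W227.DC

variable {B : Type*} {M : CoxeterMatrix B} {W : Type*} [Group W]

theorem res (cs : CoxeterSystem M W) : S_RES cs := by
  intro u v t hS q hq hlt
  have hsub : ∀ p, InInt cs u q p → InInt cs u v p := fun p hp => ⟨hp.1, hp.2.trans hq.2⟩
  refine ⟨hS.refl, ?_, fun p hp => hS.len p (hsub p hp),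
    fun p p' hp hp' => hS.lift p p' (hsub p hp) (hsub p' hp')⟩
  intro p hp
  exact ⟨(hS.maps p (hsub p hp)).1, (hS.lift p q (hsub p hp) hq hp.2 hlt).1⟩

lemma step_up {cs : CoxeterSystem M W} {a : W} (ha : cs.IsReflection a) {q : W}
    (h : cs.length q < cs.length (a * q)) : BLe cs q (a * q) :=
  BLe.single ⟨a, ha, rfl, h⟩

/-- every point of `[u, v]` is `q1` or `a q1` with `q1` in `[u, a v]` and `q1 < a q1` -/
lemma split {cs : CoxeterSystem M W} {u v a : W} (hS : Stab cs u v a) {q : W}
    (hq : InInt cs u v q) : ∃ q1, InInt cs u (a * v) q1 ∧ cs.length q1 < cs.length (a * q1) ∧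
      (q = q1 ∨ q = a * q1) := by
  have hv : InInt cs u v v := ⟨hq.1.trans hq.2, BLe.refl v⟩
  have hav := hS.maps v hv
  have hlv : cs.length (a * v) < cs.length v := by
    have h1 := BLe.len hav.2
    rcases hS.len v hv with h | h <;> omega
  obtain ⟨-, l2, l3⟩ := hS.lift q v hq hv hq.2 hlv
  have haa : a * (a * q) = q := by rw [← mul_assoc, hS.refl.mul_self, one_mul]
  rcases hS.len q hq with h | h
  · have h' : cs.length q < cs.length (a * q) := by omega
    exact ⟨q, ⟨hq.1, l2 h'⟩, h', Or.inl rfl⟩
  · have h' : cs.length (a * q) < cs.length q := by omega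
    refine ⟨a * q, ⟨(hS.maps q hq).1, l3 h'⟩, by rw [haa]; exact h', Or.inr haa.symm⟩

theorem ec (cs : CoxeterSystem M W) (h : S_COMM cs) : S_EC cs := by
  intro u v a b hA hB hab hcomm
  have hCa := h a b hA.refl hB.refl hab hcomm
  have hCb := h b a hB.refl hA.refl hab.symm hcomm.symm
  have haa : ∀ q : W, a * (a * q) = q := fun q => by
    rw [← mul_assoc, hA.refl.mul_self, one_mul]
  have hba : ∀ q : W, b * (a * q) = a * (b * q) := fun q => by
    rw [← mul_assoc, ← mul_assoc, hcomm]
  -- inclusion of the smaller interval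
  have hsub : ∀ q, InInt cs u (a * v) q → InInt cs u v v → InInt cs u v q := by
    intro q hq hv
    exact ⟨hq.1, hq.2.trans (hA.maps v hv).2⟩
  have hvv : ∀ q, InInt cs u v q → InInt cs u v v := fun q hq => ⟨hq.1.trans hq.2, BLe.refl v⟩
  have hup : ∀ q, InInt cs u v q → cs.length q < cs.length (a * q) →
      cs.length (a * q) = cs.length q + 1 := by
    intro q hq hl
    rcases hA.len q hq with h1 | h1 <;> omega
  refine ⟨hB.refl, ?_, ?_, ?_⟩
  · intro q hq
    have hv := hvv q hq
    obtain ⟨q1, hq1, -, h2⟩ := split hA hq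
    have hb1 := hsub _ (hB.maps q1 hq1) hv
    rcases h2 with rfl | rfl
    · exact hb1
    · rw [hba]
      exact hA.maps _ hb1
  · intro q hq
    have hv := hvv q hq
    obtain ⟨q1, hq1, hl1, h2⟩ := split hA hq
    rcases h2 with rfl | rfl
    · exact hB.len q hq1
    · have e1 := hup q1 (hsub _ hq1 hv) hl1
      have e2 := hup (b * q1) (hsub _ (hB.maps q1 hq1) hv) ((hCa q1).1 hl1)
      rw [hba, e1, e2]
      rcases hB.len q1 hq1 with h3 | h3 <;> omega
  · intro q p hq hp hqp hlp
    have hv := hvv q hq
    obtain ⟨q1, hq1, hlq1, h2⟩ := split hA hq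
    obtain ⟨p1, hp1, hlp1, h3⟩ := split hA hp
    rcases h3 with rfl | rfl
    · exact hB.lift q p ⟨hq.1, hqp.trans hp1.2⟩ hp1 hqp hlp
    · -- now `p = a * p1`
      have hap : cs.length (a * (a * p1)) < cs.length (a * p1) := by rw [haa]; exact hlp1
      have hp1p : BLe cs p1 (a * p1) := step_up hA.refl hlp1
      have hq1p1 : BLe cs q1 p1 := by
        obtain ⟨-, l2, l3⟩ := hA.lift q (a * p1) hq hp hqp hap
        rw [haa] at l2 l3
        rcases h2 with rfl | rfl
        · exact l2 hlq1
        · rw [haa] at l3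
          exact l3 hlq1
      have hbp1 : cs.length (b * p1) < cs.length p1 := by
        have h4 : ¬ cs.length p1 < cs.length (b * p1) := by
          intro h5
          have := (hCb p1).1 h5
          omega
        rcases hB.len p1 hp1 with h5 | h5 <;> omega
      obtain ⟨m1, m2, m3⟩ := hB.lift q1 p1 hq1 hp1 hq1p1 hbp1
      have hBp : cs.length (b * p1) < cs.length (a * (b * p1)) := (hCa p1).1 hlp1
      have hbpup : BLe cs (b * p1) (a * (b * p1)) := step_up hA.refl hBp
      have hbpI : InInt cs u v (a * (b * p1)) := hA.maps _ (hsub _ (hB.maps p1 hp1) hv)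
      have hbpd : cs.length (a * (a * (b * p1))) < cs.length (a * (b * p1)) := by
        rw [haa]; exact hBp
      have hq1I := hsub _ hq1 hv
      have hbq1I := hsub _ (hB.maps q1 hq1) hv
      rw [hba p1]
      rcases h2 with rfl | rfl
      · exact ⟨m1.trans hp1p, fun h5 => (m2 h5).trans hbpup, fun h5 => (m3 h5).trans hbpup⟩
      · rw [hba q1]
        refine ⟨(hA.lift (b * q1) (a * p1) hbq1I hp (m1.trans hp1p) hap).1, ?_, ?_⟩
        · intro h5
          rw [← hba q1] at h5
          have h6 := (hCb q1).2 h5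
          exact (hA.lift q1 (a * (b * p1)) hq1I hbpI ((m2 h6).trans hbpup) hbpd).1
        · intro h5
          rw [← hba q1] at h5
          have h6 : cs.length (b * q1) < cs.length q1 := by
            have h7 : ¬ cs.length q1 < cs.length (b * q1) := by
              intro h8
              have := (hCb q1).1 h8
              omega
            rcases hB.len q1 hq1 with h8 | h8 <;> omega
          exact (hA.lift (b * q1) (a * (b * p1)) hbq1I hbpI ((m3 h6).trans hbpup) hbpd).1

end Pool.Agent.W395.DC
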