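import Pool.Agent.W838.DC.Stm3

/-!
# DC-SYS2: inner products of two roots of a finite simply laced Coxeter group
-/

set_option autoImplicit false

namespace Pool.Agent.W395.DC

open Finset Pool.Agent.W838.DC

/-- a periodic integer sequence with `u (n+2) = t * u (n+1) - u n` and `2 ≤ t` is constant -/
lemma per_const (u : ℕ → ℤ) (t : ℤ) (ht : 2 ≤ t) (hrec : ∀ n, u (n + 2) = t * u (n + 1) - u n)
    (N : ℕ) (hN : 0 < N) (hper : ∀ n, u (n + N) = u n) : u 1 = u 0 := by
  have hA : ∑ n ∈ range N, u (n + 1) ^ 2 = ∑ n ∈ range N, u n ^ 2 := by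
    have h1 := sum_range_succ (fun n => u n ^ 2) N
    have h2 := sum_range_succ' (fun n => u n ^ 2) N
    have h3 : u N = u 0 := by simpa using hper 0
    simp only [h3] at h1
    linarith
  have hB : ∑ n ∈ range N, u (n + 1) * u (n + 2) = ∑ n ∈ range N, u n * u (n + 1) := by
    have h1 := sum_range_succ (fun n => u n * u (n + 1)) N
    have h2 := sum_range_succ' (fun n => u n * u (n + 1)) N
    have h3 : u N = u 0 := by simpa using hper 0
    have h4 : u (N + 1) = u 1 := by
      have := hper 1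
      rwa [add_comm] at this
    simp only [h3, h4, zero_add] at h1 h2
    linarith
  have hC : t * ∑ n ∈ range N, u (n + 1) ^ 2 = 2 * ∑ n ∈ range N, u n * u (n + 1) := by
    have h1 : t * ∑ n ∈ range N, u (n + 1) ^ 2 =
        ∑ n ∈ range N, (u (n + 1) * u (n + 2) + u n * u (n + 1)) := by
      rw [mul_sum]
      refine sum_congr rfl fun n _ => ?_
      rw [hrec n]; ring
    rw [h1, sum_add_distrib, hB]; ring
  have hD : ∑ n ∈ range N, (u (n + 1) - u n) ^ 2 ≤ 0 := by
    have h1 : ∑ n ∈ range N, (u (n + 1) - u n) ^ 2 =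
        ∑ n ∈ range N, u (n + 1) ^ 2 + ∑ n ∈ range N, u n ^ 2 - 2 * ∑ n ∈ range N, u n * u (n + 1) := by
      rw [mul_sum, ← sum_add_distrib, ← sum_sub_distrib]
      refine sum_congr rfl fun n _ => ?_
      ring
    have h2 : 0 ≤ ∑ n ∈ range N, u (n + 1) ^ 2 := sum_nonneg fun n _ => sq_nonneg _
    rw [h1, ← hC, ← hA]
    nlinarith
  have hE : (u (0 + 1) - u 0) ^ 2 ≤ ∑ n ∈ range N, (u (n + 1) - u n) ^ 2 :=
    single_le_sum (f := fun n => (u (n + 1) - u n) ^ 2) (fun n _ => sq_nonneg _) (mem_range.2 hN)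
  have hF : (u 1 - u 0) ^ 2 = 0 := le_antisymm (by simpa using hE.trans hD) (sq_nonneg _)
  have := pow_eq_zero_iff (two_ne_zero) |>.1 hF
  linarith

section

variable {B : Type*} [Fintype B] [DecidableEq B] {M : CoxeterMatrix B} {W : Type*} [Group W]

lemma ipZ_add (a b c : B → ℤ) : ipZ M (a + b) c = ipZ M a c + ipZ M b c := by
  unfold ipZ
  simp only [Pi.add_apply, add_mul, sum_add_distrib]

lemma ipZ_smul (k : ℤ) (a c : B → ℤ) : ipZ M (k • a) c = k * ipZ M a c := by
  unfold ipZ
  simp only [Pi.smul_apply, smul_eq_mul, mul_sum, mul_assoc]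

lemma ipZ_sub (a b c : B → ℤ) : ipZ M (a - b) c = ipZ M a c - ipZ M b c := by
  unfold ipZ
  simp only [Pi.sub_apply, sub_mul, sum_sub_distrib]

omit [Fintype B] in
lemma cart_symm (i j : B) : cart M i j = cart M j i := by
  unfold cart
  rw [M.symmetric i j]
  by_cases h : i = j
  · subst h; rfl
  · have h' : j ≠ i := fun h' => h h'.symm
    simp [h, h']

lemma ipZ_symm (a b : B → ℤ) : ipZ M a b = ipZ M b a := by
  unfold ipZ
  rw [sum_comm]
  refine sum_congr rfl fun i _ => sum_congr rfl fun j _ => ?_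
  rw [cart_symm j i]; ring

lemma ipZ_single (i : B) : ipZ M (Pi.single i 1 : B → ℤ) (Pi.single i 1) = 2 := by
  unfold ipZ
  rw [sum_eq_single i, sum_eq_single i]
  · simp [cart]
  · intro j _ hj
    simp [hj]
  · simp
  · intro j _ hj
    refine sum_eq_zero fun k _ => ?_
    simp [Pi.single_apply, hj]
  · simp

variable {cs : CoxeterSystem M W} {g : W →* AddMonoid.End (B → ℤ)}

omit [Fintype B] [DecidableEq B] in
lemma g_mul (w w' : W) (v : B → ℤ) : g (w * w') v = g w (g w' v) := by
  rw [map_mul]; rfl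

lemma refl_act (hg : IsRep cs g) (w : W) (i : B) (v : B → ℤ) :
    g (w * cs.simple i * w⁻¹) v =
      v - ipZ M v (g w (Pi.single i 1)) • g w (Pi.single i 1 : B → ℤ) := by
  have hinv : ∀ v : B → ℤ, g w (g w⁻¹ v) = v := by
    intro v
    rw [← g_mul, mul_inv_cancel, map_one]
    rfl
  rw [g_mul, g_mul, hg.simple, map_sub, map_zsmul, hinv, ← hg.inv w (g w⁻¹ v), hinv]

theorem sys2 [Finite W] (cs : CoxeterSystem M W)
    (_hsl : ∀ i j, i ≠ j → M i j = 2 ∨ M i j = 3) : S_SYS2 cs := by
  intro g hg w w' i j hne1 hne2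
  set a : B → ℤ := g w (Pi.single i 1) with ha
  set b : B → ℤ := g w' (Pi.single j 1) with hb
  have haa : ipZ M a a = 2 := by rw [ha, hg.inv, ipZ_single]
  have hbb : ipZ M b b = 2 := by rw [hb, hg.inv, ipZ_single]
  set p : ℤ := ipZ M a b with hp
  have hba : ipZ M b a = p := by rw [ipZ_symm]
  by_contra hcon
  have hp4 : 4 ≤ p ^ 2 := by
    by_contra h
    push Not at h
    refine hcon ⟨?_, ?_⟩ <;> nlinarith
  set ρ : W := (w * cs.simple i * w⁻¹) * (w' * cs.simple j * w'⁻¹) with hρ
  have hact : ∀ v : B → ℤ, g ρ v = v - ipZ M v b • b - (ipZ M v a - ipZ M v b * p) • a := by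
    intro v
    rw [hρ, g_mul, refl_act hg w' j, refl_act hg w i, ← ha, ← hb,
      ipZ_sub, ipZ_smul, hba]
  have hρa : g ρ a = (p ^ 2 - 1) • a - p • b := by
    rw [hact, haa, ← hp]
    module
  have hρb : g ρ b = p • a - b := by
    rw [hact, hbb, hba]
    module
  have hpow : ∀ n, ∀ v : B → ℤ, g (ρ ^ (n + 1)) v = g (ρ ^ n) (g ρ v) := by
    intro n v
    rw [pow_succ, g_mul]
  have hρρ : g ρ (g ρ b) = (p ^ 2 - 2) • g ρ b - b := by
    rw [hρb, map_sub, map_zsmul, hρa, hρb]
    module
  have hN : ρ ^ Nat.card W = 1 := pow_card_eq_one'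
  have hfix : g ρ b = b := by
    funext k
    have h := per_const (fun n => g (ρ ^ n) b k) (p ^ 2 - 2) (by linarith) ?_ (Nat.card W)
      Nat.card_pos ?_
    · simpa using h
    · intro n
      rw [hpow (n + 1), hpow n, hpow n, hρρ, map_sub, map_zsmul]
      simp
    · intro n
      rw [pow_add, hN, mul_one]
  rw [hρb] at hfix
  have h2b : p • a = (2 : ℤ) • b := by
    have : p • a = b + b := by
      have := congrArg (fun v => v + b) hfix
      simpa using this
    rw [this, two_smul]
  have hp2 : p ^ 2 = 4 := by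
    have h : ipZ M (p • a) b = ipZ M ((2 : ℤ) • b) b := by rw [h2b]
    rw [ipZ_smul, ipZ_smul, hbb, ← hp] at h
    nlinarith
  have hp22 : p = 2 ∨ p = -2 := by
    have : (p - 2) * (p + 2) = 0 := by linarith
    rcases mul_eq_zero.1 this with h | h
    · left; linarith
    · right; linarith
  rcases hp22 with h | h
  · rw [h] at h2b
    refine hne1 ?_
    funext k
    have := congrFun h2b k
    simp only [Pi.smul_apply, smul_eq_mul] at this
    linarith
  · rw [h] at h2b
    refine hne2 ?_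
    funext k
    have := congrFun h2b k
    simp only [Pi.smul_apply, smul_eq_mul, Pi.neg_apply] at this ⊢
    linarith

end

end Pool.Agent.W395.DC
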